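import Pool.Agent.H516.PCF.All

/-! Gauss valuations (S_GVB) for helper516 (MP_392fd3_nt). -/

set_option autoImplicit false

namespace Pool.Agent.H358.PCF.G

open Polynomial Pool.Agent.H516.PCF

variable {F : Type} [Field F] {w : F → ℝ}

theorem mn_self (a : F) (ρ : ℝ) : mn w a a ρ = ρ := by
  unfold mn; rw [if_pos rfl]

theorem mn_ne {a z : F} (h : z ≠ a) (ρ : ℝ) : mn w a z ρ = min (w (a - z)) ρ := by
  unfold mn; rw [if_neg (Ne.symm h)]

theorem mn_eq_iff (a z : F) (ρ : ℝ) : (z = a ∨ ρ ≤ w (a - z)) ↔ mn w a z ρ = ρ := by
  by_cases h : z = a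
  · rw [h, mn_self]
    exact ⟨fun _ => rfl, fun _ => Or.inl rfl⟩
  · rw [mn_ne h]
    constructor
    · rintro (h1 | h1)
      · exact absurd h1 h
      · exact min_eq_right h1
    · intro h1
      exact Or.inr (min_eq_right_iff.1 h1)

theorem exists_delta {ι : Type} (s : Multiset ι) (f : ι → ℝ) (P : ι → Prop)
    (hs : ∀ z ∈ s, P z → 0 < f z) : ∃ δ : ℝ, 0 < δ ∧ ∀ z ∈ s, P z → δ ≤ f z := by
  induction s using Multiset.induction_on with
  | empty => exact ⟨1, one_pos, by simp⟩
  | cons a s ih =>
    obtain ⟨δ, h1, h2⟩ := ih fun z hz => hs z (Multiset.mem_cons_of_mem hz)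
    by_cases hP : P a
    · have h3 := hs a (Multiset.mem_cons_self a s) hP
      refine ⟨min δ (f a), lt_min h1 h3, fun z hz hz' => ?_⟩
      rcases Multiset.mem_cons.1 hz with rfl | hz
      · exact min_le_right _ _
      · exact (min_le_left _ _).trans (h2 z hz hz')
    · refine ⟨δ, h1, fun z hz hz' => ?_⟩
      rcases Multiset.mem_cons.1 hz with rfl | hz
      · exact absurd hz' hP
      · exact h2 z hz hz'

theorem cont_mn (a z : F) : Continuous fun ρ => mn w a z ρ := by
  by_cases h : z = a
  · have : (fun ρ => mn w a z ρ) = fun ρ => ρ := by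
      funext ρ; rw [h, mn_self]
    rw [this]
    exact continuous_id
  · have : (fun ρ => mn w a z ρ) = fun ρ => min (w (a - z)) ρ := by
      funext ρ; rw [mn_ne h]
    rw [this]
    exact continuous_const.min continuous_id

theorem cont_sum (a : F) (s : Multiset F) : Continuous fun ρ => (s.map fun z => mn w a z ρ).sum := by
  induction s using Multiset.induction_on with
  | empty => simpa using continuous_const
  | cons b s ih =>
    simp only [Multiset.map_cons, Multiset.sum_cons]
    exact (cont_mn a b).add ih

omit [Field F] in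
/-- sums of linear functions -/
theorem sum_lin (s : Multiset F) (f g : F → ℝ) (P : F → Prop) (i : DecidablePred P) (h : ℝ)
    (hf : ∀ z ∈ s, (P z → f z = g z + h) ∧ (¬ P z → f z = g z)) :
    (s.map f).sum = (s.map g).sum + ((@Multiset.filter F P i s).card : ℝ) * h := by
  induction s using Multiset.induction_on with
  | empty => simp
  | cons a s ih =>
    have h1 := ih fun z hz => hf z (Multiset.mem_cons_of_mem hz)
    have h2 := hf a (Multiset.mem_cons_self a s)
    rw [Multiset.map_cons, Multiset.sum_cons, Multiset.map_cons, Multiset.sum_cons, h1]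
    by_cases hP : P a
    · rw [Multiset.filter_cons_of_pos _ hP, Multiset.card_cons, h2.1 hP]
      push_cast
      ring
    · rw [Multiset.filter_cons_of_neg _ hP, h2.2 hP]
      ring

omit [Field F] in
theorem filter_card_congr (s : Multiset F) (P Q : F → Prop) (i : DecidablePred P)
    (j : DecidablePred Q) (h : ∀ z ∈ s, P z ↔ Q z) :
    (@Multiset.filter F P i s).card = (@Multiset.filter F Q j s).card := by
  congr 1
  exact Multiset.filter_congr h

/-- Gauss valuations. -/
theorem gvb (hNAB : S_NAB) : S_GVB := by
  intro F _ _ _ p w hp h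
  obtain ⟨n1, n2, n3, n4, n5, n6, n7, n8, n9, n10, n11, n12⟩ := hNAB F p w hp h
  -- the ultrametric inequality without exceptions
  have ult : ∀ a b z : F, ∀ r : ℝ, (b = a ∨ r ≤ w (a - b)) → (z = b ∨ r ≤ w (b - z)) →
      (z = a ∨ r ≤ w (a - z)) := by
    intro a b z r h1 h2
    rcases h1 with h1 | h1
    · rw [← h1]; exact h2
    rcases h2 with h2 | h2
    · rw [h2]; exact Or.inr h1
    by_cases e1 : a = b
    · rw [e1]; exact Or.inr h2
    by_cases e2 : b = z
    · rw [← e2]; exact Or.inr h1
    by_cases e3 : z = a
    · exact Or.inl e3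
    · exact Or.inr ((le_min h1 h2).trans (n8 a b z e1 e2 (Ne.symm e3)))
  have ult' : ∀ a b z : F, ∀ r : ℝ, (b = a ∨ r < w (a - b)) → (z = b ∨ r < w (b - z)) →
      (z = a ∨ r < w (a - z)) := by
    intro a b z r h1 h2
    rcases h1 with h1 | h1
    · rw [← h1]; exact h2
    rcases h2 with h2 | h2
    · rw [h2]; exact Or.inr h1
    by_cases e1 : a = b
    · rw [e1]; exact Or.inr h2
    by_cases e2 : b = z
    · rw [← e2]; exact Or.inr h1
    by_cases e3 : z = a
    · exact Or.inl e3
    · exact Or.inr ((lt_min h1 h2).trans_le (n8 a b z e1 e2 (Ne.symm e3)))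
  have sym : ∀ a b : F, ∀ r : ℝ, (b = a ∨ r ≤ w (a - b)) → (a = b ∨ r ≤ w (b - a)) := by
    intro a b r h1
    rcases h1 with h1 | h1
    · exact Or.inl h1.symm
    · by_cases e : a = b
      · exact Or.inl e
      · exact Or.inr (by rwa [n6 b a (Ne.symm e)])
  have sym' : ∀ a b : F, ∀ r : ℝ, (b = a ∨ r < w (a - b)) → (a = b ∨ r < w (b - a)) := by
    intro a b r h1
    rcases h1 with h1 | h1
    · exact Or.inl h1.symm
    · by_cases e : a = b
      · exact Or.inl e
      · exact Or.inr (by rwa [n6 b a (Ne.symm e)])
  -- one inequality between `mn` at two centres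
  have mnle : ∀ a b z : F, ∀ ρ' : ℝ, (b = a ∨ ρ' ≤ w (a - b)) → mn w a z ρ' ≤ mn w b z ρ' := by
    intro a b z ρ' hab
    have h1 : mn w a z ρ' ≤ ρ' := by
      by_cases e : z = a
      · rw [e, mn_self]
      · rw [mn_ne e]; exact min_le_right _ _
    have h2 : z = a ∨ mn w a z ρ' ≤ w (a - z) := by
      by_cases e : z = a
      · exact Or.inl e
      · rw [mn_ne e]; exact Or.inr (min_le_left _ _)
    have h3 : z = b ∨ mn w a z ρ' ≤ w (b - z) :=
      ult b a z _ (sym a b _ (hab.imp id fun q => h1.trans q)) h2
    by_cases e : z = b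
    · rw [e, mn_self, ← e]; exact h1
    · rw [mn_ne e]
      exact le_min (h3.resolve_left e) h1
  have mneq : ∀ a b z : F, ∀ ρ' : ℝ, (b = a ∨ ρ' ≤ w (a - b)) → mn w a z ρ' = mn w b z ρ' :=
    fun a b z ρ' hab => le_antisymm (mnle a b z ρ' hab) (mnle b a z ρ' (sym a b ρ' hab))
  refine ⟨?_, ?_, ?_, ?_, ?_, ?_⟩
  · intro U V hU hV a ρ
    unfold gv
    rw [leadingCoeff_mul, roots_mul (mul_ne_zero hU hV), Multiset.map_add, Multiset.sum_add,
      h.mul _ _ (leadingCoeff_ne_zero.2 hU) (leadingCoeff_ne_zero.2 hV)]
    ring
  · intro c U hc hU a ρ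
    unfold gv
    rw [leadingCoeff_mul, leadingCoeff_C, roots_C_mul _ hc, h.mul _ _ hc (leadingCoeff_ne_zero.2 hU)]
    ring
  · intro U a
    unfold gv
    exact continuous_const.add (cont_sum a U.roots)
  · intro U a b ρ hab ρ' hρ
    have hab' : b = a ∨ ρ' ≤ w (a - b) := hab.imp id fun q => hρ.trans q
    constructor
    · unfold gv
      refine congrArg (fun y => w U.leadingCoeff + y) ?_
      exact congrArg Multiset.sum (Multiset.map_congr rfl fun z _ => mneq a b z ρ' hab')
    · unfold ccnt
      refine filter_card_congr _ _ _ _ _ fun z _ => ?_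
      rw [mn_eq_iff, mn_eq_iff, mneq a b z ρ' hab']
  · intro U a b ρ hab ρ' hρ
    have hab' : b = a ∨ ρ' < w (a - b) := hab.imp id fun q => hρ.trans_lt q
    unfold cnt
    refine filter_card_congr _ _ _ _ _ fun z _ => ?_
    exact ⟨fun q => ult' b a z ρ' (sym' a b ρ' hab') q, fun q => ult' a b z ρ' hab' q⟩
  · intro U a ρ
    obtain ⟨ε, hε, hε2⟩ := exists_delta U.roots (fun z => |w (a - z) - ρ|)
      (fun z => z ≠ a ∧ w (a - z) ≠ ρ) (by
        intro z _ hz
        rw [abs_pos, sub_ne_zero]
        exact hz.2)
    -- the three cases for a root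
    have tri : ∀ z ∈ U.roots, z ≠ a → w (a - z) = ρ ∨ ρ + ε ≤ w (a - z) ∨ w (a - z) ≤ ρ - ε := by
      intro z hz hza
      by_cases e : w (a - z) = ρ
      · exact Or.inl e
      · right
        have h1 := hε2 z hz ⟨hza, e⟩
        rcases le_abs.1 h1 with h2 | h2
        · left; linarith
        · right; linarith
    refine ⟨ε, hε, fun t ht0 htε => ⟨?_, ?_, ?_, ?_⟩⟩
    · unfold gv cnt
      rw [add_assoc]
      refine congrArg (fun y => w U.leadingCoeff + y) ?_
      refine sum_lin U.roots _ _ _ _ t fun z hz => ?_
      by_cases hza : z = a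
      · refine ⟨fun _ => ?_, fun q => absurd (Or.inl hza) q⟩
        rw [hza, mn_self, mn_self]
      · rw [mn_ne hza, mn_ne hza]
        rcases tri z hz hza with h1 | h1 | h1
        · refine ⟨fun q => ?_, fun _ => ?_⟩
          · rcases q with q | q
            · exact absurd q hza
            · linarith
          · rw [min_eq_left (by linarith), min_eq_left (by linarith)]
        · refine ⟨fun _ => ?_, fun q => absurd (Or.inr (by linarith)) q⟩
          rw [min_eq_right (by linarith), min_eq_right (by linarith)]
        · refine ⟨fun q => ?_, fun _ => ?_⟩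
          · rcases q with q | q
            · exact absurd q hza
            · linarith
          · rw [min_eq_left (by linarith), min_eq_left (by linarith)]
    · unfold gv ccnt
      rw [sub_eq_add_neg (w U.leadingCoeff + _) (_ * t), ← mul_neg, add_assoc]
      refine congrArg (fun y => w U.leadingCoeff + y) ?_
      refine sum_lin U.roots _ _ _ _ (-t) fun z hz => ?_
      by_cases hza : z = a
      · refine ⟨fun _ => ?_, fun q => absurd (Or.inl hza) q⟩
        rw [hza, mn_self, mn_self]
        ring
      · rw [mn_ne hza, mn_ne hza]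
        rcases tri z hz hza with h1 | h1 | h1
        · refine ⟨fun _ => ?_, fun q => absurd (Or.inr (by linarith)) q⟩
          rw [min_eq_right (by linarith), min_eq_right (by linarith)]
          ring
        · refine ⟨fun _ => ?_, fun q => absurd (Or.inr (by linarith)) q⟩
          rw [min_eq_right (by linarith), min_eq_right (by linarith)]
          ring
        · refine ⟨fun q => ?_, fun _ => ?_⟩
          · rcases q with q | q
            · exact absurd q hza
            · linarith
          · rw [min_eq_left (by linarith), min_eq_left (by linarith)]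
    · unfold cnt
      refine filter_card_congr _ _ _ _ _ fun z hz => ?_
      by_cases hza : z = a
      · exact ⟨fun _ => Or.inl hza, fun _ => Or.inl hza⟩
      · constructor
        · rintro (q | q)
          · exact absurd q hza
          · exact Or.inr (by linarith)
        · rintro (q | q)
          · exact absurd q hza
          · right
            rcases tri z hz hza with h1 | h1 | h1 <;> linarith
    · intro ht
      refine ⟨?_, ?_, ?_⟩
      · rintro ⟨z, hz, hza, e⟩
        rcases tri z hz hza with h1 | h1 | h1 <;> linarith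
      · rintro ⟨z, hz, hza, e⟩
        rcases tri z hz hza with h1 | h1 | h1 <;> linarith
      · unfold cnt ccnt
        refine filter_card_congr _ _ _ _ _ fun z hz => ?_
        by_cases hza : z = a
        · exact ⟨fun _ => Or.inl hza, fun _ => Or.inl hza⟩
        · constructor
          · rintro (q | q)
            · exact absurd q hza
            · right
              rcases tri z hz hza with h1 | h1 | h1 <;> linarith
          · rintro (q | q)
            · exact absurd q hza
            · exact Or.inr (by linarith)

end Pool.Agent.H358.PCF.G
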