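import Pool.Agent.H516.PCF.All

/-! Divisibility of slopes (S_SL) for helper516 (MP_392fd3_nt). -/

set_option autoImplicit false

namespace Pool.Agent.H358.PCF

open Polynomial Pool.Agent.H516.PCF

/-- `w x ≥ r`, with `w 0 = ∞` -/
def ge {F : Type} [Field F] (w : F → ℝ) (x : F) (r : ℝ) : Prop := x = 0 ∨ r ≤ w x

section basic
variable {F : Type} [Field F] {p : ℕ} {w : F → ℝ}

theorem ge_mono {x : F} {r s : ℝ} (hx : ge w x r) (hs : s ≤ r) : ge w x s :=
  hx.imp id fun h => hs.trans h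

theorem ge_add (h : NA p w) {x y : F} {r : ℝ} (hx : ge w x r) (hy : ge w y r) :
    ge w (x + y) r := by
  rcases hx with hx | hx
  · rw [hx, zero_add]; exact hy
  rcases hy with hy | hy
  · rw [hy, add_zero]; exact Or.inr hx
  by_cases h0 : x = 0
  · rw [h0, zero_add]; exact Or.inr hy
  by_cases h1 : y = 0
  · rw [h1, add_zero]; exact Or.inr hx
  by_cases h2 : x + y = 0
  · exact Or.inl h2
  · exact Or.inr ((le_min hx hy).trans (h.add x y h0 h1 h2))

theorem ge_mul (h : NA p w) {x y : F} {r s : ℝ} (hx : ge w x r) (hy : ge w y s) :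
    ge w (x * y) (r + s) := by
  rcases hx with hx | hx
  · exact Or.inl (by rw [hx, zero_mul])
  rcases hy with hy | hy
  · exact Or.inl (by rw [hy, mul_zero])
  by_cases h0 : x = 0
  · exact Or.inl (by rw [h0, zero_mul])
  by_cases h1 : y = 0
  · exact Or.inl (by rw [h1, mul_zero])
  · exact Or.inr (by rw [h.mul x y h0 h1]; linarith)

theorem ge_msum (h : NA p w) {ι : Type} (s : Multiset ι) (f : ι → F) {r : ℝ}
    (hs : ∀ z ∈ s, ge w (f z) r) : ge w (s.map f).sum r := by
  induction s using Multiset.induction_on with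
  | empty => exact Or.inl (by simp)
  | cons a s ih =>
    rw [Multiset.map_cons, Multiset.sum_cons]
    exact ge_add h (hs a (Multiset.mem_cons_self a s))
      (ih fun z hz => hs z (Multiset.mem_cons_of_mem hz))

theorem ge_fsum (h : NA p w) {ι : Type} (s : Finset ι) (f : ι → F) {r : ℝ}
    (hs : ∀ z ∈ s, ge w (f z) r) : ge w (∑ z ∈ s, f z) r := ge_msum h s.val f hs

theorem w_prod (h : NA p w) (w1 : w 1 = 0) {ι : Type} (s : Multiset ι) (f : ι → F)
    (hs : ∀ z ∈ s, f z ≠ 0) :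
    (s.map f).prod ≠ 0 ∧ w (s.map f).prod = (s.map fun z => w (f z)).sum := by
  induction s using Multiset.induction_on with
  | empty => simp [w1]
  | cons a s ih =>
    obtain ⟨h1, h2⟩ := ih fun z hz => hs z (Multiset.mem_cons_of_mem hz)
    have h3 := hs a (Multiset.mem_cons_self a s)
    rw [Multiset.map_cons, Multiset.prod_cons, Multiset.map_cons, Multiset.sum_cons]
    exact ⟨mul_ne_zero h3 h1, by rw [h.mul _ _ h3 h1, h2]⟩

theorem w_eval [IsAlgClosed F] (h : NA p w) (w1 : w 1 = 0) {U : F[X]} (hU : U ≠ 0) {x a : F}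
    {ρ : ℝ} (hx : ∀ z ∈ U.roots, x ≠ z ∧ w (x - z) = mn w a z ρ) :
    U.eval x ≠ 0 ∧ w (U.eval x) = gv w U a ρ := by
  have h1 := w_prod h w1 U.roots (fun z => x - z) (fun z hz => sub_ne_zero.2 (hx z hz).1)
  have hl : U.leadingCoeff ≠ 0 := leadingCoeff_ne_zero.2 hU
  rw [(IsAlgClosed.splits U).eval_eq_prod_roots x]
  refine ⟨mul_ne_zero hl h1.1, ?_⟩
  rw [h.mul _ _ hl h1.1, h1.2]
  unfold gv
  refine congrArg (fun y => w U.leadingCoeff + y) ?_
  exact congrArg Multiset.sum (Multiset.map_congr rfl fun z hz => (hx z hz).2)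

theorem exists_delta {ι : Type} (s : Multiset ι) (f : ι → ℝ) (P : ι → Prop)
    (hs : ∀ z ∈ s, P z → 0 < f z) : ∃ δ : ℝ, 0 < δ ∧ ∀ z ∈ s, P z → δ ≤ f z := by
  induction s using Multiset.induction_on with
  | empty => exact ⟨1, one_pos, by simp⟩
  | cons a s ih =>
    obtain ⟨δ, h1, h2⟩ := ih fun z hz => hs z (Multiset.mem_cons_of_mem hz)
    by_cases hP : P a
    · have h3 := hs a (Multiset.mem_cons_self a s) hP
      refine ⟨min δ (f a), lt_min h1 h3, fun z hz hz' => ?_⟩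
      rcases Multiset.mem_cons.1 hz with rfl | hz
      · exact min_le_right _ _
      · exact (min_le_left _ _).trans (h2 z hz hz')
    · refine ⟨δ, h1, fun z hz hz' => ?_⟩
      rcases Multiset.mem_cons.1 hz with rfl | hz
      · exact absurd hz' hP
      · exact h2 z hz hz'

theorem sum_ite (s : Multiset F) (P : F → Prop) (i1 i2 : DecidablePred P) :
    (s.map fun z => @ite F (P z) (i1 z) 1 0).sum = ((@Multiset.filter F P i2 s).card : F) := by
  induction s using Multiset.induction_on with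
  | empty => simp
  | cons a s ih =>
    rw [Multiset.map_cons, Multiset.sum_cons, ih]
    by_cases hP : P a
    · rw [if_pos hP, Multiset.filter_cons_of_pos _ hP, Multiset.card_cons]
      push_cast
      ring
    · rw [if_neg hP, Multiset.filter_cons_of_neg _ hP, zero_add]

end basic

open Classical in
theorem termA {F : Type} [Field F] [CharZero F] [IsAlgClosed F] (hNAB : S_NAB) {p : ℕ}
    {w : F → ℝ} (hp : p.Prime) (h : NA p w) {a u z : F} (hu : u ≠ 0) {r : ℕ} (hr : 0 < r)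
    {δ : ℝ} (hδ : 0 < δ) (hz : z ≠ a → δ ≤ |w (a - z) - w u|) :
    u ^ r ≠ (z - a) ^ r ∧ ge w (u ^ r / (u ^ r - (z - a) ^ r) -
      (if z = a ∨ w u < w (a - z) then (1 : F) else 0)) (r * δ) := by
  obtain ⟨n1, n2, n3, n4, n5, n6, n7, n8, n9, n10, n11, n12⟩ := hNAB F p w hp h
  have hrR : (0 : ℝ) < r := by exact_mod_cast hr
  have hur : u ^ r ≠ 0 := pow_ne_zero _ hu
  by_cases hza : z = a
  · rw [if_pos (Or.inl hza), hza, sub_self, zero_pow hr.ne', sub_zero, div_self hur, sub_self]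
    exact ⟨hur, Or.inl rfl⟩
  · have hd := hz hza
    have ht : z - a ≠ 0 := sub_ne_zero.2 hza
    have htr : (z - a) ^ r ≠ 0 := pow_ne_zero _ ht
    have hntr : -(z - a) ^ r ≠ 0 := neg_ne_zero.2 htr
    have e1 : w (z - a) = w (a - z) := n6 z a hza
    have e2 : w (-(z - a) ^ r) = r * w (a - z) := by rw [n2 _ htr, n4 _ ht, e1]
    have e3 : w (u ^ r) = r * w u := n4 _ hu r
    rcases lt_or_ge (w u) (w (a - z)) with hlt | hge
    · rw [if_pos (Or.inr hlt)]
      have hd' : δ ≤ w (a - z) - w u := by rwa [abs_of_pos (by linarith)] at hd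
      obtain ⟨f1, f2⟩ := n7 (u ^ r) (-(z - a) ^ r) hur hntr (by rw [e2, e3]; nlinarith)
      rw [← sub_eq_add_neg] at f1 f2
      refine ⟨sub_ne_zero.1 f1, Or.inr ?_⟩
      have e4 : u ^ r / (u ^ r - (z - a) ^ r) - 1 = (z - a) ^ r / (u ^ r - (z - a) ^ r) := by
        field_simp
        ring
      rw [e4, n5 _ _ htr f1, f2, e3, n4 _ ht, e1]
      nlinarith
    · have hne : w (a - z) ≠ w u := by
        intro h0
        rw [h0, sub_self, abs_zero] at hd
        linarith
      have hlt : w (a - z) < w u := lt_of_le_of_ne hge hne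
      rw [if_neg (by
        rintro (h1 | h1)
        · exact hza h1
        · linarith)]
      have hd' : δ ≤ w u - w (a - z) := by
        rw [abs_of_neg (by linarith)] at hd
        linarith
      obtain ⟨f1, f2⟩ := n7 (-(z - a) ^ r) (u ^ r) hntr hur (by rw [e2, e3]; nlinarith)
      have e5 : -(z - a) ^ r + u ^ r = u ^ r - (z - a) ^ r := by ring
      rw [e5] at f1 f2
      refine ⟨sub_ne_zero.1 f1, Or.inr ?_⟩
      rw [sub_zero, n5 _ _ hur f1, f2, e3, e2]
      nlinarith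

theorem main {F : Type} [Field F] [CharZero F] [IsAlgClosed F] (hNAB : S_NAB) (hGEN : S_GEN)
    (hAVG : S_AVG) {p : ℕ} {w : F → ℝ} (hp : p.Prime) (h : NA p w) {U V : F[X]} (hU : U ≠ 0)
    (hV : V ≠ 0) (hJ : wr U V ≠ 0) (a u₀ : F) (hu₀ : u₀ ≠ 0) (bU : ¬ brk w U a (w u₀))
    (bV : ¬ brk w V a (w u₀)) (m : ℤ) (hm : m = (cnt w U a (w u₀) : ℤ) - cnt w V a (w u₀))
    (hm0 : m ≠ 0) :
    w u₀ + gv w (wr U V) a (w u₀) - gv w U a (w u₀) - gv w V a (w u₀) ≤ w (m : F) := by
  classical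
  obtain ⟨n1, n2, n3, n4, n5, n6, n7, n8, n9, n10, n11, n12⟩ := hNAB F p w hp h
  -- the minimal distance
  obtain ⟨δ, hδ, hδ2⟩ := exists_delta (U.roots + V.roots) (fun z => |w (a - z) - w u₀|)
    (fun z => z ≠ a) (by
      intro z hz hza
      rw [abs_pos, sub_ne_zero]
      intro h0
      rcases Multiset.mem_add.1 hz with hz | hz
      · exact bU ⟨z, hz, hza, h0⟩
      · exact bV ⟨z, hz, hza, h0⟩)
  -- the order of the roots of unity
  obtain ⟨k, hk⟩ := exists_nat_gt (w (m : F) / δ)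
  have hpos := hp.pos
  obtain ⟨r, hr⟩ : ∃ r : ℕ, r = p * k + 1 := ⟨_, rfl⟩
  have hr0 : 0 < r := by omega
  have hrp : ¬ p ∣ r := by
    rw [hr, Nat.dvd_add_right (dvd_mul_right p k), Nat.dvd_one]
    exact hp.one_lt.ne'
  have hkr : k ≤ r := by
    have := Nat.le_mul_of_pos_left k hpos
    omega
  have hrδ : w (m : F) < r * δ := by
    have h1 : (k : ℝ) ≤ r := by exact_mod_cast hkr
    have h2 : w (m : F) / δ < r := lt_of_lt_of_le hk h1
    rwa [div_lt_iff₀ hδ] at h2
  have hrF : (r : F) ≠ 0 := Nat.cast_ne_zero.2 hr0.ne'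
  have hwr : w (r : F) = 0 := by
    have h1 := n10 (r : ℤ) (by exact_mod_cast hr0.ne')
    rw [padicValInt.of_nat, padicValNat.eq_zero_of_not_dvd hrp] at h1
    simpa using h1
  -- a generic point
  obtain ⟨u, hu, hwu, hgen⟩ := hGEN F p w hp h
    (((U.roots + V.roots + (wr U V).roots).toFinset : Finset F) : Set F)
    (Finset.finite_toSet _) a u₀ hu₀ r hr0
  have hT : ∀ z, z ∈ U.roots ∨ z ∈ V.roots ∨ z ∈ (wr U V).roots →
      z ∈ (((U.roots + V.roots + (wr U V).roots).toFinset : Finset F) : Set F) := by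
    intro z hz
    rw [Finset.mem_coe, Multiset.mem_toFinset, Multiset.mem_add, Multiset.mem_add]
    tauto
  set G := nthRootsFinset r (1 : F) with hG
  have hGm : ∀ ζ ∈ G, ζ ^ r = 1 := fun ζ hζ => (mem_nthRootsFinset hr0 1).1 hζ
  have hGne : ∀ ζ ∈ G, ζ ≠ 0 := by
    intro ζ hζ h0
    have := hGm ζ hζ
    rw [h0, zero_pow hr0.ne'] at this
    exact zero_ne_one this
  -- values at the generic points
  set B := gv w (wr U V) a (w u₀) - gv w U a (w u₀) - gv w V a (w u₀) with hB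
  have key : ∀ ζ ∈ G, ge w (ζ * u * ((wr U V).eval (a + u * ζ) /
      (U.eval (a + u * ζ) * V.eval (a + u * ζ)))) (w u₀ + B) ∧
      ζ * u * ((wr U V).eval (a + u * ζ) / (U.eval (a + u * ζ) * V.eval (a + u * ζ))) =
      (U.roots.map fun z => ζ * u / (ζ * u - (z - a))).sum -
      (V.roots.map fun z => ζ * u / (ζ * u - (z - a))).sum := by
    intro ζ hζ
    have g := hgen ζ (hGm ζ hζ)
    obtain ⟨a1, a2⟩ := w_eval h n1 hU (fun z hz => g z (hT z (Or.inl hz)))
    obtain ⟨b1, b2⟩ := w_eval h n1 hV (fun z hz => g z (hT z (Or.inr (Or.inl hz))))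
    obtain ⟨c1, c2⟩ := w_eval h n1 hJ (fun z hz => g z (hT z (Or.inr (Or.inr hz))))
    have hζ0 := hGne ζ hζ
    have hζu : ζ * u ≠ 0 := mul_ne_zero hζ0 hu
    constructor
    · refine Or.inr (le_of_eq ?_)
      rw [h.mul _ _ hζu (div_ne_zero c1 (mul_ne_zero a1 b1)), h.mul _ _ hζ0 hu,
        n5 _ _ c1 (mul_ne_zero a1 b1), h.mul _ _ a1 b1, n11 ζ r hr0 (hGm ζ hζ), a2, b2, c2, hwu, hB]
      ring
    · have d1 := (IsAlgClosed.splits U).eval_derivative_div_eval_of_ne_zero a1
      have d2 := (IsAlgClosed.splits V).eval_derivative_div_eval_of_ne_zero b1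
      have d3 : (wr U V).eval (a + u * ζ) / (U.eval (a + u * ζ) * V.eval (a + u * ζ)) =
          U.derivative.eval (a + u * ζ) / U.eval (a + u * ζ) -
          V.derivative.eval (a + u * ζ) / V.eval (a + u * ζ) := by
        unfold wr
        rw [eval_sub, eval_mul, eval_mul]
        field_simp
      have d4 : ∀ z : F, ζ * u * (1 / (a + u * ζ - z)) = ζ * u / (ζ * u - (z - a)) := by
        intro z
        have : a + u * ζ - z = ζ * u - (z - a) := by ring
        rw [this, mul_one_div]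
      rw [d3, d1, d2, mul_sub, ← Multiset.sum_map_mul_left, ← Multiset.sum_map_mul_left]
      rw [Multiset.map_congr rfl fun z _ => d4 z, Multiset.map_congr rfl fun z _ => d4 z]
  -- the terms
  have hterm : ∀ z, z ∈ U.roots ∨ z ∈ V.roots → u ^ r ≠ (z - a) ^ r ∧
      ge w (u ^ r / (u ^ r - (z - a) ^ r) -
      (if z = a ∨ w u₀ < w (a - z) then (1 : F) else 0)) (r * δ) := by
    intro z hz
    have h1 := termA (z := z) hNAB hp h (a := a) hu hr0 hδ (fun hza => by
      rw [hwu]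
      exact hδ2 z (Multiset.mem_add.2 hz) hza)
    rwa [hwu] at h1
  have hswap : ∀ W : F[X], (∀ z ∈ W.roots, u ^ r ≠ (z - a) ^ r) →
      ∑ ζ ∈ G, (W.roots.map fun z => ζ * u / (ζ * u - (z - a))).sum =
      r * (W.roots.map fun z => u ^ r / (u ^ r - (z - a) ^ r)).sum := by
    intro W hW
    have e1 : ∑ ζ ∈ G, (W.roots.map fun z => ζ * u / (ζ * u - (z - a))).sum =
        (W.roots.map fun z => ∑ ζ ∈ G, ζ * u / (ζ * u - (z - a))).sum :=
      Multiset.sum_map_sum_map G.val W.roots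
    rw [e1, ← Multiset.sum_map_mul_left]
    refine congrArg Multiset.sum (Multiset.map_congr rfl fun z hz => ?_)
    rw [(hAVG F r hr0 u (z - a) (hW z hz)).2]
    ring
  have hX1 : ge w (∑ ζ ∈ G, ζ * u * ((wr U V).eval (a + u * ζ) /
      (U.eval (a + u * ζ) * V.eval (a + u * ζ)))) (w u₀ + B) :=
    ge_fsum h G _ fun ζ hζ => (key ζ hζ).1
  have hX2 : ∑ ζ ∈ G, ζ * u * ((wr U V).eval (a + u * ζ) /
      (U.eval (a + u * ζ) * V.eval (a + u * ζ))) =
      r * ((U.roots.map fun z => u ^ r / (u ^ r - (z - a) ^ r)).sum -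
        (V.roots.map fun z => u ^ r / (u ^ r - (z - a) ^ r)).sum) := by
    rw [Finset.sum_congr rfl fun ζ hζ => (key ζ hζ).2, Finset.sum_sub_distrib,
      hswap U (fun z hz => (hterm z (Or.inl hz)).1), hswap V (fun z hz => (hterm z (Or.inr hz)).1)]
    ring
  have hX3 : ge w ((U.roots.map fun z => u ^ r / (u ^ r - (z - a) ^ r)).sum -
        (V.roots.map fun z => u ^ r / (u ^ r - (z - a) ^ r)).sum) (w u₀ + B) := by
    have e : (U.roots.map fun z => u ^ r / (u ^ r - (z - a) ^ r)).sum -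
        (V.roots.map fun z => u ^ r / (u ^ r - (z - a) ^ r)).sum =
        (r : F)⁻¹ * ∑ ζ ∈ G, ζ * u * ((wr U V).eval (a + u * ζ) /
      (U.eval (a + u * ζ) * V.eval (a + u * ζ))) := by
      rw [hX2, ← mul_assoc, inv_mul_cancel₀ hrF, one_mul]
    rw [e]
    have h1 : ge w ((r : F)⁻¹) 0 := Or.inr (by rw [n3 _ hrF, hwr, neg_zero])
    have h2 := ge_mul h h1 hX1
    rwa [zero_add] at h2
  have hE : ∀ W : F[X], (∀ z ∈ W.roots, ge w (u ^ r / (u ^ r - (z - a) ^ r) -
      (if z = a ∨ w u₀ < w (a - z) then (1 : F) else 0)) (r * δ)) →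
      ge w ((W.roots.map fun z => u ^ r / (u ^ r - (z - a) ^ r)).sum -
        (cnt w W a (w u₀) : F)) (r * δ) := by
    intro W hW
    have e : (cnt w W a (w u₀) : F) =
        (W.roots.map fun z => if z = a ∨ w u₀ < w (a - z) then (1 : F) else 0).sum := by
      unfold cnt
      exact (sum_ite W.roots (fun z => z = a ∨ w u₀ < w (a - z)) _ _).symm
    rw [e, ← Multiset.sum_map_sub]
    exact ge_msum h _ _ hW
  have neg_ge : ∀ x : F, ∀ s : ℝ, ge w x s → ge w (-x) s := by
    intro x s hx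
    rcases hx with hx | hx
    · exact Or.inl (by rw [hx, neg_zero])
    · by_cases h0 : x = 0
      · exact Or.inl (by rw [h0, neg_zero])
      · exact Or.inr (by rwa [n2 x h0])
  have hEU := hE U fun z hz => (hterm z (Or.inl hz)).2
  have hEV := hE V fun z hz => (hterm z (Or.inr hz)).2
  have hmF : (m : F) = ((U.roots.map fun z => u ^ r / (u ^ r - (z - a) ^ r)).sum -
        (V.roots.map fun z => u ^ r / (u ^ r - (z - a) ^ r)).sum) +
      (-((U.roots.map fun z => u ^ r / (u ^ r - (z - a) ^ r)).sum - (cnt w U a (w u₀) : F)) +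
      ((V.roots.map fun z => u ^ r / (u ^ r - (z - a) ^ r)).sum - (cnt w V a (w u₀) : F))) := by
    rw [hm]
    push_cast
    ring
  have hfin : ge w (m : F) (min (w u₀ + B) (r * δ)) := by
    rw [hmF]
    exact ge_add h (ge_mono hX3 (min_le_left _ _))
      (ge_mono (ge_add h (neg_ge _ _ hEU) hEV) (min_le_right _ _))
  rcases hfin with h0 | h1
  · exact absurd (Int.cast_eq_zero.1 h0) hm0
  · rcases min_le_iff.1 h1 with h2 | h2
    · rw [hB] at h2
      linarith
    · linarith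

/-- Divisibility of slopes. -/
theorem sl (hNAB : S_NAB) (hGVB : S_GVB) (hGEN : S_GEN) (hAVG : S_AVG) : S_SL := by
  intro F _ _ _ p w hp h U V hU hV hJ a ρ _ _ m hm
  obtain ⟨n1, n2, n3, n4, n5, n6, n7, n8, n9, n10, n11, n12⟩ := hNAB F p w hp h
  obtain ⟨g1, g2, g3, g4, g5, g6⟩ := hGVB F p w hp h
  by_cases hm0 : m = 0
  · exact Or.inl hm0
  right
  by_contra hcon
  push Not at hcon
  obtain ⟨e1, he1, q1⟩ := g6 U a ρ
  obtain ⟨e2, he2, q2⟩ := g6 V a ρ
  obtain ⟨e3, he3, q3⟩ := g6 (wr U V) a ρ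
  set K : ℝ := 1 + cnt w (wr U V) a ρ - cnt w U a ρ - cnt w V a ρ with hK
  set gap : ℝ := ρ + gv w (wr U V) a ρ - gv w U a ρ - gv w V a ρ - w (m : F) with hgap
  have hgap0 : 0 < gap := by rw [hgap]; linarith
  have hK1 : 0 < |K| + 1 := by positivity
  set η := min (min e1 e2) (min e3 (gap / (|K| + 1))) with hη
  have hη0 : 0 < η := lt_min (lt_min he1 he2) (lt_min he3 (div_pos hgap0 hK1))
  obtain ⟨u, hu, hu1, hu2⟩ := n12 ρ (ρ + η) (by linarith)
  obtain ⟨t, ht⟩ : ∃ t, t = w u - ρ := ⟨_, rfl⟩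
  have hwu : w u = ρ + t := by rw [ht]; ring
  have ht0 : 0 < t := by linarith
  have htη : t < η := by linarith
  have t1 : t < e1 := htη.trans_le ((min_le_left _ _).trans (min_le_left _ _))
  have t2 : t < e2 := htη.trans_le ((min_le_left _ _).trans (min_le_right _ _))
  have t3 : t < e3 := htη.trans_le ((min_le_right _ _).trans (min_le_left _ _))
  have t4 : t < gap / (|K| + 1) := htη.trans_le ((min_le_right _ _).trans (min_le_right _ _))
  obtain ⟨r1, -, r2, r3⟩ := q1 t ht0.le t1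
  obtain ⟨s1, -, s2, s3⟩ := q2 t ht0.le t2
  obtain ⟨x1, -, x2, x3⟩ := q3 t ht0.le t3
  have hmain := main hNAB hGEN hAVG hp h hU hV hJ a u hu (by rw [hwu]; exact (r3 ht0).1)
    (by rw [hwu]; exact (s3 ht0).1) m (by rw [hwu, r2, s2]; exact hm) hm0
  rw [hwu, r1, s1, x1] at hmain
  rw [lt_div_iff₀ hK1] at t4
  have hKt : -(|K| * t) ≤ K * t := by
    have := neg_abs_le K
    nlinarith
  have e : ρ + t + (gv w (wr U V) a ρ + cnt w (wr U V) a ρ * t) - (gv w U a ρ + cnt w U a ρ * t) -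
      (gv w V a ρ + cnt w V a ρ * t) = gap + w (m : F) + K * t := by
    rw [hgap, hK]; ring
  rw [e] at hmain
  nlinarith

end Pool.Agent.H358.PCF
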